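import Mathlib
import Pool.Agent.P8H53.TW.Conn

/-!
# The twist graph of the colourful triangulations of the 14-gon is connected (MP_b57ad3)

The definitions are in `Pool/Agent/P8H53/TW/Defs.lean`. The polygon has the vertices `1, …, N`; a
triangulation is a maximal set of pairwise non-crossing diagonals; the vertex `i` has the colour
`i mod 3`; a triangulation is colourful when each of its triangles has three colours; `H N` is the
graph whose vertices are the colourful triangulations, two of them being adjacent when one is
obtained from the other by a single twist. For `N = 14 ≡ 2 (mod 3)` there are 140 colourful
triangulations, and `H 14` is connected. So the assertion that `H N` is not connected for every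
`N ≥ 8` with `N ≡ 2 (mod 3)` is false.
-/

set_option autoImplicit false

namespace Pool.Agent.Results.MP_b57ad3_co.FourteenConnected

open Pool.Agent.P8H53.TW

/-- The graph `H 14` of the colourful triangulations of the 14-gon and their twists is connected;
so it is not true that `H N` is not connected for all `N ≥ 8` with `N ≡ 2 (mod 3)`. -/
theorem result : (H 14).Connected ∧ ¬ ∀ N : ℕ, 8 ≤ N → N % 3 = 2 → ¬ (H N).Connected :=
  ⟨connected, fun h => h 14 (by norm_num) (by norm_num) connected⟩

end Pool.Agent.Results.MP_b57ad3_co.FourteenConnected
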